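import Mathlib
import Pool.Agent.L0h54.EY.Fin

/-!
# Small witnesses for the strong pseudoprimality test: the exceptional set is smaller than `x^(1/2)`

Unconditionally all but `O(x^(49/100))` of the composite numbers `n ≤ x` have a witness `1 < b ≤ 2 (log n)²`. So the
exceptional set is thinner than the squares: for example, for all `m ≤ N` but `O(N^(98/100))` the number `m² + 1` is
prime or has a witness in this range.

Sketch of the proof. Let `n` be an exception, `x/2 < n ≤ x`. It is squarefree. Let `W` be the set of the odd primes
up to `(log x)²`. All symbols `(ℓ/p)`, `ℓ` in `W`, agree for the primes `p` in the set `E` of the primes dividing `n`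
for which the exponent of `2` in `p - 1` is least, and are `1` for the others. The products of the elements of `W`
give more than `p^(1/2-ε)` elements of the subgroup of order `G_p = gcd (p - 1, n - 1)` modulo `p`. For a divisor `d`
of `n` let `L_d` be the least common multiple of the `G_p`, `p | d`; it divides `n - 1` and `φ(d)`.

* If `L_n ≤ x^(0.0609)`, all prime factors of `n` are small and lie in a sparse set `p ≡ 1 mod g`, `g | L`,
  `g ≥ p^(1/2-1/10000)`, and their products are counted with the large sieve for quadratic characters in a fixed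
  residue class, in the form with exponent `2/3` (the shift by multiples of the modulus and the fourth moment), and
  Rankin's trick.
* If `L_n` is larger and `E` has at least three elements, then `n = d e` where `d` has known symbols, so lies in a
  sparse set by Heath-Brown's large sieve, and `e` is a prime factor of `n` or a divisor of moderate size in a
  residue class known from `d`; or again the modulus is small for most prime factors.
* If `E = {p, q}`, the same holds unless `n = p q m` with `m` small; then there are few possibilities by the two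
  congruences for `p` and `q`.
* If `E = {q}`, then either `G_q > q^(1/2) x^(0.0101)`, a congruence for `q` modulo a large divisor of `n/q - 1`,
  or `q` lies in a sparse set by a larger sieve, and `n/q` has a divisor as in the second case.
-/

set_option autoImplicit false

namespace Pool.Agent.Results.MP_0b15c0_nt.BelowSquareRoot

/-- `n` fails the strong test for the base `b`: writing `n - 1 = 2 ^ j * d` with `d` odd, neither
`b ^ d = 1` nor `b ^ (2 ^ i * d) = -1` for some `i < j`, modulo `n`. -/
def IsWitness (n b : ℕ) : Prop :=
  ∀ j d : ℕ, n - 1 = 2 ^ j * d → Odd d →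
    (b : ZMod n) ^ d ≠ 1 ∧ ∀ i : ℕ, i < j → (b : ZMod n) ^ (2 ^ i * d) ≠ -1

/-- the composite numbers at most `x` without a witness in `1 < b ≤ 2 (log n)²` -/
def Exceptions (x : ℕ) : Set ℕ :=
  {n : ℕ | n ≤ x ∧ 2 ≤ n ∧ ¬ n.Prime ∧
    ¬ ∃ b : ℕ, 1 < b ∧ (b : ℝ) ≤ 2 * (Real.log n) ^ 2 ∧ IsWitness n b}

/-- There is `K` such that for all `x ≥ 1` at most `K x^(49/100)` of the composite `n ≤ x` have no witness `b`
with `1 < b ≤ 2 (log n)²`. -/
theorem result : ∃ K : ℝ, ∀ x : ℕ, 1 ≤ x →
    (Exceptions x).Finite ∧
      ((Exceptions x).ncard : ℝ) ≤ K * (x : ℝ) ^ ((49 : ℝ) / 100) := by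
  classical
  obtain ⟨K, _, hK⟩ := L0h54.EY.main'
  refine ⟨K, fun x hx => ?_⟩
  have h1 : Exceptions x ⊆ (((Finset.Icc 1 x).filter (W57.SW.Bd 2) : Finset ℕ) : Set ℕ) := by
    intro n hn
    obtain ⟨h1, h2, h3, h4⟩ := hn
    rw [Finset.mem_coe, Finset.mem_filter, Finset.mem_Icc]
    refine ⟨⟨by omega, h1⟩, h2, h3, fun b hb1 hb2 => ?_⟩
    by_contra hp
    apply h4
    rw [Real.rpow_two] at hb2
    refine ⟨b, hb1, hb2, fun j d hjd hd => ⟨fun e => ?_, fun i hi e => ?_⟩⟩
    · exact hp ⟨j, d, hjd, hd, Or.inl e⟩
    · exact hp ⟨j, d, hjd, hd, Or.inr ⟨i, hi, e⟩⟩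
  have h2 : (Exceptions x).Finite := (Finset.finite_toSet _).subset h1
  refine ⟨h2, le_trans ?_ (hK x hx)⟩
  have h3 := Set.ncard_le_ncard h1 (Finset.finite_toSet _)
  rw [Set.ncard_coe_finset] at h3
  exact_mod_cast h3

end Pool.Agent.Results.MP_0b15c0_nt.BelowSquareRoot
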