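import Pool.Agent.W57.SW.Group

/-!
# Small witnesses for the strong test: composite numbers with few liars, or with a large prime factor

Let `A > 1` and `ε > 0`. Every sufficiently large composite `n` has a witness `1 < b ≤ (log n)^A` for the
strong test in each of the following cases:
(1) for some divisor `D > 1` of `n` the equation `z^(n-1) = 1` has fewer than `D^(1-1/A-ε)` solutions
modulo `D`; for instance (`D = n`) if `n` has fewer than `n^(1-1/A-ε)` Fermat liars;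
(2) `gcd (q - 1, n - 1) < q^(1-1/A-ε)` for some prime factor `q` of `n`;
(3) `n` has a prime factor `q ≥ n^(A/(2A-1)+ε)`.
For `A = 2` this is the range of the question (even without the factor `2`), and the exponents are
`1/2 - ε` in (1) and (2) and `2/3 + ε` in (3). As `A` grows, the exponent in (3) tends to `1/2`: for every
`η > 0` the bases up to a fixed power of `log n` detect all composites with a prime factor at least
`n^(1/2+η)`.

Proof. If there is no such witness, then all products of primes up to `(log n)^A` are solutions of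
`z^(n-1) = 1` modulo `D`; and there are more than `D^(1-1/A-ε)` such products up to `D`.  For a prime `D = q`
the number of solutions is at most `gcd (q - 1, n - 1) = gcd (q - 1, n / q - 1) < n / q`.
-/

set_option autoImplicit false

namespace Pool.Agent.Results.MP_0b15c0_nt.FewLiars

open Finset Real Pool.Agent.H379R2.W Pool.Agent.W57.SW

/-- `n` fails the strong test for the base `b`: writing `n - 1 = 2 ^ j * d` with `d` odd, neither
`b ^ d = 1` nor `b ^ (2 ^ i * d) = -1` for some `i < j`, modulo `n`. -/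
def IsWitness (n b : ℕ) : Prop :=
  ∀ j d : ℕ, n - 1 = 2 ^ j * d → Odd d →
    (b : ZMod n) ^ d ≠ 1 ∧ ∀ i : ℕ, i < j → (b : ZMod n) ^ (2 ^ i * d) ≠ -1

/-- composite numbers without a witness up to `(log n)^A` -/
def Bad1 (A : ℝ) (n : ℕ) : Prop :=
  2 ≤ n ∧ ¬ n.Prime ∧ ∀ b : ℕ, 1 < b → (b : ℝ) ≤ (log n) ^ A → Passes n b

lemma bad1_of {A : ℝ} {n : ℕ} (h2 : 2 ≤ n) (hp : ¬ n.Prime)
    (h : ¬ ∃ b : ℕ, 1 < b ∧ (b : ℝ) ≤ (log n) ^ A ∧ IsWitness n b) : Bad1 A n := by
  refine ⟨h2, hp, fun b hb1 hb2 => ?_⟩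
  by_contra hpp
  apply h
  refine ⟨b, hb1, hb2, fun j d hjd hd => ⟨fun e => ?_, fun i hi e => ?_⟩⟩
  · exact hpp ⟨j, d, hjd, hd, Or.inl e⟩
  · exact hpp ⟨j, d, hjd, hd, Or.inr ⟨i, hi, e⟩⟩

lemma prime_large {A : ℝ} {n q : ℕ} (h : Bad1 A n) (hq : q.Prime) (hqn : q ∣ n) :
    (log n) ^ A < q := by
  by_contra hle
  push Not at hle
  exact not_dvd_of_passes h.1 hq hqn (h.2.2 q hq.one_lt hle) dvd_rfl

/-- The group bound. -/
lemma group_bound1 (A δ : ℝ) (hA : 1 < A) (hδ : 0 < δ) : ∃ D0 : ℕ, ∀ n : ℕ, Bad1 A n →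
    ∀ D : ℕ, D0 ≤ D → D ∣ n → (D : ℝ) ^ (1 - 1 / A - δ) ≤ (liars n D : ℝ) := by
  obtain ⟨D0, hD0⟩ := smooth_many A δ hA hδ
  refine ⟨max D0 3, fun n hn D hD hDn => ?_⟩
  have hD1 : 3 ≤ D := (le_max_right _ _).trans hD
  have : NeZero D := ⟨by omega⟩
  obtain ⟨S, hS1, hS2⟩ := hD0 D ((le_max_left _ _).trans hD)
  refine hS2.trans ?_
  have hn0 : 0 < n := by have := hn.1; omega
  have hDle : D ≤ n := Nat.le_of_dvd hn0 hDn
  have hlog : log D ≤ log n :=
    log_le_log (by exact_mod_cast (by omega : 0 < D)) (by exact_mod_cast hDle)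
  have hlog0 : 0 ≤ log (D : ℝ) := log_natCast_nonneg D
  have hy : (log (D : ℝ)) ^ A ≤ (log (n : ℝ)) ^ A :=
    rpow_le_rpow hlog0 hlog (by linarith : 0 ≤ A)
  have hmem : ∀ s ∈ S, (s : ZMod D) ^ (n - 1) = 1 := by
    intro s hs
    obtain ⟨h1, h2, _, _, h3⟩ := hS1 s hs
    refine pow_eq_one_of_primes s h1 fun p hp hps => ?_
    exact pow_of_passes_dvd (hn.2.2 p hp.one_lt ((h3 p hp hps).trans hy)) hDn
  have hcard : S.card ≤ liars n D := by
    unfold liars
    have hinj : Function.Injective (fun s : S => (⟨((s : ℕ) : ZMod D), hmem s s.2⟩ :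
        {z : ZMod D // z ^ (n - 1) = 1})) := by
      intro s s' hss
      have h1 : ((s : ℕ) : ZMod D) = ((s' : ℕ) : ZMod D) := congrArg Subtype.val hss
      rw [ZMod.natCast_eq_natCast_iff] at h1
      obtain ⟨a1, a2, _⟩ := hS1 s s.2
      obtain ⟨b1, b2, _⟩ := hS1 s' s'.2
      apply Subtype.ext
      have h2 : ((s : ℕ) - 1) ≡ ((s' : ℕ) - 1) [MOD D] := by
        have e1 : (s : ℕ) = ((s : ℕ) - 1) + 1 := by omega
        have e2 : (s' : ℕ) = ((s' : ℕ) - 1) + 1 := by omega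
        rw [e1, e2] at h1
        exact Nat.ModEq.add_right_cancel' 1 h1
      have h3 := Nat.ModEq.eq_of_lt_of_lt h2 (by omega) (by omega)
      omega
    have h1 := Nat.card_le_card_of_injective _ hinj
    rw [Nat.card_eq_fintype_card, Fintype.card_coe] at h1
    exact h1
  exact_mod_cast hcard

/-- all divisors `D > 1` of a bad `n` are large -/
lemma group_bound2 (A δ : ℝ) (hA : 1 < A) (hδ : 0 < δ) : ∃ N : ℕ, 3 ≤ N ∧ ∀ n : ℕ, N ≤ n →
    Bad1 A n → ∀ D : ℕ, 1 < D → D ∣ n → (D : ℝ) ^ (1 - 1 / A - δ) ≤ (liars n D : ℝ) := by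
  obtain ⟨D0, hD0⟩ := group_bound1 A δ hA hδ
  have h1 : ∀ᶠ x : ℝ in Filter.atTop, (D0 : ℝ) ≤ (log x) ^ A :=
    ((tendsto_rpow_atTop (by linarith : 0 < A)).comp tendsto_log_atTop).eventually
      (Filter.eventually_ge_atTop _)
  obtain ⟨Y, hY⟩ := Filter.eventually_atTop.mp h1
  refine ⟨max 3 ⌈Y⌉₊, le_max_left _ _, fun n hn hb D hD1 hDn => ?_⟩
  have a1 := hY n (Nat.ceil_le.mp ((le_max_right _ _).trans hn))
  have hn0 : 0 < n := by have := hb.1; omega
  have hq := Nat.minFac_prime (show D ≠ 1 by omega)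
  have hqD := Nat.minFac_dvd D
  have h2 := prime_large hb hq (hqD.trans hDn)
  have h3 : D.minFac ≤ D := Nat.minFac_le (by omega)
  apply hD0 n hb D _ hDn
  have h4 : (D0 : ℝ) ≤ (D.minFac : ℝ) := a1.trans h2.le
  have h5 : D0 ≤ D.minFac := by exact_mod_cast h4
  omega

/-- for a prime divisor `q` of `n = q * m` -/
lemma gcd_eq {n q m : ℕ} (hq : 2 ≤ q) (hm : 1 ≤ m) (hnm : n = q * m) :
    Nat.gcd (q - 1) (n - 1) = Nat.gcd (q - 1) (m - 1) := by
  have e1 : n - 1 = (m - 1) + (q - 1) * m := by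
    rw [hnm]
    obtain ⟨q', rfl⟩ : ∃ q', q = q' + 1 := ⟨q - 1, by omega⟩
    obtain ⟨m', rfl⟩ : ∃ m', m = m' + 1 := ⟨m - 1, by omega⟩
    simp only [Nat.add_sub_cancel]
    rw [show (q' + 1) * (m' + 1) = m' + q' * (m' + 1) + 1 by ring]
    omega
  rw [e1, Nat.gcd_add_mul_left_right]

/-- Let `A > 1` and `ε > 0`. Every sufficiently large composite `n` satisfying one of the following
conditions has a witness `1 < b ≤ (log n)^A`: (1) `n` has a divisor `D > 1` such that `z^(n-1) = 1` has fewer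
than `D^(1-1/A-ε)` solutions modulo `D`; (2) `n` has a prime factor `q` with
`gcd (q - 1, n - 1) < q^(1-1/A-ε)`; (3) `n` has a prime factor `q ≥ n^(A/(2A-1)+ε)`.
The case `A = 2` lies in the range of the question. -/
theorem result (A ε : ℝ) (hA : 1 < A) (hε : 0 < ε) : ∃ N : ℕ, ∀ n : ℕ, N ≤ n → ¬ n.Prime →
    ((∃ D : ℕ, 1 < D ∧ D ∣ n ∧
        (Nat.card {z : ZMod D // z ^ (n - 1) = 1} : ℝ) < (D : ℝ) ^ (1 - 1 / A - ε)) ∨
      (∃ q : ℕ, q.Prime ∧ q ∣ n ∧ (Nat.gcd (q - 1) (n - 1) : ℝ) < (q : ℝ) ^ (1 - 1 / A - ε)) ∨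
      (∃ q : ℕ, q.Prime ∧ q ∣ n ∧ (n : ℝ) ^ (A / (2 * A - 1) + ε) ≤ q)) →
    ∃ b : ℕ, 1 < b ∧ (b : ℝ) ≤ (Real.log n) ^ A ∧ IsWitness n b := by
  have hA0 : 0 < A := by linarith
  obtain ⟨N1, hN13, hN1⟩ := group_bound2 A ε hA hε
  obtain ⟨N2, hN23, hN2⟩ := group_bound2 A (ε / 2) hA (by positivity)
  refine ⟨max N1 N2, fun n hn hp hc => ?_⟩
  have hnN1 : N1 ≤ n := (le_max_left _ _).trans hn
  have hnN2 : N2 ≤ n := (le_max_right _ _).trans hn
  have hn3 : 3 ≤ n := hN13.trans hnN1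
  by_contra hw
  have hb : Bad1 A n := bad1_of (by omega) hp hw
  rcases hc with ⟨D, hD1, hDn, hlt⟩ | ⟨q, hq, hqn, hlt⟩ | ⟨q, hq, hqn, hle⟩
  · exact absurd (hN1 n hnN1 hb D hD1 hDn) (not_le.mpr hlt)
  · have h1 := hN1 n hnN1 hb q hq.one_lt hqn
    have h2 : (liars n q : ℝ) ≤ (Nat.gcd (q - 1) (n - 1) : ℝ) := by
      exact_mod_cast liars_prime hb.1 hq
    linarith
  · have h1 := hN2 n hnN2 hb q hq.one_lt hqn
    have h2 : (liars n q : ℝ) ≤ (Nat.gcd (q - 1) (n - 1) : ℝ) := by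
      exact_mod_cast liars_prime hb.1 hq
    obtain ⟨m, hm⟩ := hqn
    have hm2 : 2 ≤ m := by
      by_contra h
      have : m = 0 ∨ m = 1 := by omega
      rcases this with h | h
      · rw [h, mul_zero] at hm; omega
      · rw [h, mul_one] at hm; exact hp (hm ▸ hq)
    rw [gcd_eq hq.two_le (by omega) hm] at h2
    have h3 : Nat.gcd (q - 1) (m - 1) ≤ m - 1 := Nat.gcd_le_right _ (by omega)
    have h4 : (Nat.gcd (q - 1) (m - 1) : ℝ) < m := by
      have : Nat.gcd (q - 1) (m - 1) < m := by omega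
      exact_mod_cast this
    have hnpos : (0 : ℝ) < n := by exact_mod_cast (by omega : 0 < n)
    have hn1 : (1 : ℝ) < n := by exact_mod_cast (by omega : 1 < n)
    have hqpos : (0 : ℝ) < q := by exact_mod_cast hq.pos
    have hqle : q ≤ n := by rw [hm]; exact Nat.le_mul_of_pos_right q (by omega)
    -- the exponent is at most one
    have h2A : 0 < 2 * A - 1 := by linarith
    obtain ⟨s, hs⟩ : ∃ s : ℝ, s = A / (2 * A - 1) := ⟨_, rfl⟩
    rw [← hs] at hle
    have hs1 : 1 / 2 < s := by rw [hs, lt_div_iff₀ h2A]; linarith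
    have hs2 : s < 1 := by rw [hs, div_lt_one h2A]; linarith
    have hsA : s * (2 - 1 / A) = 1 := by
      have h2A' : 2 * A - 1 ≠ 0 := h2A.ne'
      rw [hs, show 2 - 1 / A = (2 * A - 1) / A by field_simp, div_mul_div_comm,
        mul_comm A (2 * A - 1), div_self (mul_ne_zero h2A' hA0.ne')]
    have hexp : s + ε ≤ 1 := by
      by_contra hgt
      push Not at hgt
      have h5 : (n : ℝ) ^ (1 : ℝ) < (n : ℝ) ^ (s + ε) := rpow_lt_rpow_of_exponent_lt hn1 hgt
      rw [rpow_one] at h5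
      have h6 : (q : ℝ) ≤ n := by exact_mod_cast hqle
      linarith
    -- the size of `n`
    have hκ0 : 0 < 2 - 1 / A - ε / 2 := by
      have : 1 / A < 1 := by rw [div_lt_one hA0]; exact hA
      linarith
    have h5 : (q : ℝ) * (q : ℝ) ^ (1 - 1 / A - ε / 2) < n := by
      rw [hm]; push_cast
      exact mul_lt_mul_of_pos_left (lt_of_le_of_lt (h1.trans h2) h4) hqpos
    have h6 : (q : ℝ) * (q : ℝ) ^ (1 - 1 / A - ε / 2) = (q : ℝ) ^ (2 - 1 / A - ε / 2) := by
      nth_rewrite 1 [← rpow_one (q : ℝ)]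
      rw [← rpow_add hqpos]; congr 1; ring
    rw [h6] at h5
    have h7 : ((n : ℝ) ^ (s + ε)) ^ (2 - 1 / A - ε / 2) ≤ (q : ℝ) ^ (2 - 1 / A - ε / 2) :=
      rpow_le_rpow (by positivity) hle hκ0.le
    rw [← rpow_mul hnpos.le] at h7
    have h8 : 1 < (s + ε) * (2 - 1 / A - ε / 2) := by
      have e1 : (s + ε) * (2 - 1 / A - ε / 2) =
          s * (2 - 1 / A) + ε * (2 - 1 / A - s / 2 - ε / 2) := by ring
      rw [e1, hsA]
      have : 1 / A < 1 := by rw [div_lt_one hA0]; exact hA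
      have : 0 < ε * (2 - 1 / A - s / 2 - ε / 2) := mul_pos hε (by linarith)
      linarith
    have h9 : (n : ℝ) ^ (1 : ℝ) < (n : ℝ) ^ ((s + ε) * (2 - 1 / A - ε / 2)) :=
      rpow_lt_rpow_of_exponent_lt hn1 h8
    rw [rpow_one] at h9
    linarith

end Pool.Agent.Results.MP_0b15c0_nt.FewLiars
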