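import Mathlib
import Pool.Agent.L0h69.SI.PolyFin

/-!
# Small witnesses for the strong pseudoprimality test for the values of polynomials

Let `f` be an integer polynomial of degree `d ≥ 2` without multiple factors and with positive leading coefficient, and
let `A ≥ 2`, `A > d - 1`. Unconditionally, for all `k ≤ N` but `O(N^(θ+ε))` the value `f(k)` is prime or has a witness
`1 < b ≤ 2 (log f(k))^A`, where `θ = (A+1)/(2A) + max(0, 2d/(A+1) - 1) (A-1)/(2A) < 1`. For the range `A = 2` of the
question and quadratic polynomials one has `θ = 5/6`: for example, for all `k ≤ N` but `O(N^(5/6+ε))` the number `k² + 1`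
is prime or has a witness `≤ 2 (log (k² + 1))²`; the size `O(x^(49/100))` of the exceptional set gives only `O(N^(98/100))`.
For larger `A` the values are sparser than the known bound `x^(1/A+ε)` for the exceptions can treat (`d ≥ A`).

Proof. Let `n = f(k)` be an exception. It is squarefree, and all small odd primes `ℓ` have Jacobi symbol `(ℓ/n) = 1`, or
`n = p m` with a prime `p`, and all have `(ℓ/m) = 1`, and `gcd (p-1) (m-1)` is at least `p^(1-1/A-ε)` (starting results
of this problem). By the bound for character sums of polynomials `f(k)` has a given quadratic character modulo `ℓ` for at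
most `3/4` of the classes `k` modulo `ℓ`, and the large sieve for the moduli which are products of small primes shows
that there are at most `O(N^ε L^((A+1)/(2A)))` such `k` in a progression with `L` terms. This is used for `n` and for
the multiples `n = p m` of the primes `p ≤ N^ρ`. If `p > N^ρ` then `m` is at most `N^(d-ρ)`, and not too small by the
condition on the gcd, and Heath-Brown's large sieve bounds the number of the `m`.
-/

set_option autoImplicit false

namespace Pool.Agent.Results.MP_0b15c0_nt.PolynomialValues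

open Polynomial

/-- `n` fails the strong test for the base `b`: writing `n - 1 = 2 ^ j * d` with `d` odd, neither
`b ^ d = 1` nor `b ^ (2 ^ i * d) = -1` for some `i < j`, modulo `n`. -/
def IsWitness (n b : ℕ) : Prop :=
  ∀ j d : ℕ, n - 1 = 2 ^ j * d → Odd d →
    (b : ZMod n) ^ d ≠ 1 ∧ ∀ i : ℕ, i < j → (b : ZMod n) ^ (2 ^ i * d) ≠ -1

/-- the `k` with `1 ≤ k ≤ N` for which `f(k)` is a composite number `n` without a witness in `1 < b ≤ 2 (log n)^A` -/
def Exceptions (A : ℝ) (f : ℤ[X]) (N : ℕ) : Set ℕ :=
  {k : ℕ | 1 ≤ k ∧ k ≤ N ∧ ∃ n : ℕ, f.eval (k : ℤ) = (n : ℤ) ∧ 2 ≤ n ∧ ¬ n.Prime ∧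
    ¬ ∃ b : ℕ, 1 < b ∧ (b : ℝ) ≤ 2 * (Real.log n) ^ A ∧ IsWitness n b}

/-- the exponent; `5/6` for `A = 2` and `d = 2` -/
noncomputable def theta (A : ℝ) (d : ℕ) : ℝ :=
  (A + 1) / (2 * A) + max 0 (2 * d / (A + 1) - 1) * ((A - 1) / (2 * A))

/-- Let `A ≥ 2` (`A = 2` is the range of the question) and let `f` be an integer polynomial of degree `d`, `2 ≤ d < A + 1`,
with positive leading coefficient and without multiple factors. For every `ε > 0` there is `K` such that for all `N` and
all but at most `K N^(θ+ε)` of the `k ≤ N`, `f(k)` is not a composite number without a witness `1 < b ≤ 2 (log f(k))^A`;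
here `θ = theta A d < 1`. -/
theorem result (A : ℝ) (hA : 2 ≤ A) (f : ℤ[X]) (hf : Squarefree (f.map (Int.castRingHom ℚ)))
    (hd : 2 ≤ f.natDegree) (hdA : (f.natDegree : ℝ) < A + 1) (hlc : 0 < f.leadingCoeff) :
    theta A f.natDegree < 1 ∧ ∀ ε : ℝ, 0 < ε → ∃ K : ℝ, ∀ N : ℕ,
      ((Exceptions A f N).ncard : ℝ) ≤ K * (N : ℝ) ^ (theta A f.natDegree + ε) := by
  classical
  have hA0 : 0 < A := by linarith
  refine ⟨?_, fun ε hε => ?_⟩
  · have h1 : max 0 (2 * (f.natDegree : ℝ) / (A + 1) - 1) < 1 := by
      apply max_lt one_pos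
      have : 2 * (f.natDegree : ℝ) / (A + 1) < 2 := by
        rw [div_lt_iff₀ (by linarith)]
        linarith
      linarith
    have h2 : 0 < (A - 1) / (2 * A) := div_pos (by linarith) (by linarith)
    have h3 := mul_lt_mul_of_pos_right h1 h2
    have h4 : (A + 1) / (2 * A) + (A - 1) / (2 * A) = 1 := by
      field_simp
      ring
    unfold theta
    linarith
  · obtain ⟨K, hK0, hK⟩ := Pool.Agent.L0h69.SI.poly_count A ε hA hε f hf hd hlc hdA
    have hθ : Pool.Agent.L0h69.SI.theta A f.natDegree = theta A f.natDegree := by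
      unfold Pool.Agent.L0h69.SI.theta Pool.Agent.L0h69.SI.rho theta
      have h1 : (1 + 1 / A) / 2 = (A + 1) / (2 * A) := by field_simp
      have h2 : 1 - (1 + 1 / A) / 2 = (A - 1) / (2 * A) := by
        field_simp
        ring
      rw [h2, h1]
    rw [hθ] at hK
    refine ⟨K, fun N => le_trans ?_ (hK N)⟩
    have h1 : Exceptions A f N ⊆ (((Finset.Icc 1 N).filter
        (fun k : ℕ => Pool.Agent.W57.SW.Bd A (f.eval (k : ℤ)).toNat) : Finset ℕ) : Set ℕ) := by
      intro k hk
      obtain ⟨h1, h1', n, hn, h2, h3, h4⟩ := hk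
      rw [Finset.mem_coe, Finset.mem_filter, Finset.mem_Icc]
      refine ⟨⟨h1, h1'⟩, ?_⟩
      rw [hn, Int.toNat_natCast]
      refine ⟨h2, h3, fun b hb1 hb2 => ?_⟩
      by_contra hp
      apply h4
      refine ⟨b, hb1, hb2, fun j d hjd hd => ⟨fun e => ?_, fun i hi e => ?_⟩⟩
      · exact hp ⟨j, d, hjd, hd, Or.inl e⟩
      · exact hp ⟨j, d, hjd, hd, Or.inr ⟨i, hi, e⟩⟩
    have h3 := Set.ncard_le_ncard h1 (Finset.finite_toSet _)
    rw [Set.ncard_coe_finset] at h3
    exact_mod_cast h3

end Pool.Agent.Results.MP_0b15c0_nt.PolynomialValues
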