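import Mathlib
import Pool.Agent.L0h69.SI.Fin

/-!
# Small witnesses for the strong pseudoprimality test in short intervals

Let `A ≥ 2` and `1 ≤ H ≤ x`. Unconditionally all but `O(x^ε (H^((A+1)/(2A)) + x^(1/(A+1))))` of the composite numbers in
the interval `(x, x + H]` have a witness `1 < b ≤ 2 (log n)^A`. For `A = 2`, the range of the question, the bound is
`O(x^ε (H^(3/4) + x^(1/3)))`: almost all composite numbers in each interval `(x, x + x^(1/3+δ)]` have a witness
`1 < b ≤ 2 (log n)²`. If the bases are allowed to be as large as a higher power of `log n` then still shorter intervals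
are possible: for each `δ > 0` there is `A` such that almost all composite numbers in each interval `(x, x + x^δ]` have a
witness `1 < b ≤ 2 (log n)^A`.

Proof. Let `n` be an exception. It is squarefree, and all small odd primes `ℓ` have Jacobi symbol `(ℓ/n) = 1`, or
`n = p m` with a prime `p`, and all have `(ℓ/m) = 1`, and `e = gcd (p-1) (m-1)` is at least `p^(1-1/A-ε)` (starting results
of this problem). The large sieve for the moduli which are products of small primes shows that an arithmetic progression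
with `L` terms contains at most `O(x^ε L^((A+1)/(2A)))` numbers `m` such that all these symbols are `1`. This is used for
the interval itself, and for `p ≤ x^(1/(A+1))` and the numbers `m ≡ 1` modulo `e` with `x < p m ≤ x + H`; here
`∑ (H / (p e))^((A+1)/(2A))` converges. For `p > x^(1/(A+1))` one has `m ≤ 2 x^(A/(A+1))`; Heath-Brown's large sieve
bounds the number of the `m`, and `p` is in a residue class modulo `e` and in an interval of length `H / m`.
-/

set_option autoImplicit false

namespace Pool.Agent.Results.MP_0b15c0_nt.ShortIntervals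

/-- `n` fails the strong test for the base `b`: writing `n - 1 = 2 ^ j * d` with `d` odd, neither
`b ^ d = 1` nor `b ^ (2 ^ i * d) = -1` for some `i < j`, modulo `n`. -/
def IsWitness (n b : ℕ) : Prop :=
  ∀ j d : ℕ, n - 1 = 2 ^ j * d → Odd d →
    (b : ZMod n) ^ d ≠ 1 ∧ ∀ i : ℕ, i < j → (b : ZMod n) ^ (2 ^ i * d) ≠ -1

/-- the composite numbers in the interval `(x, x + H]` without a witness in `1 < b ≤ 2 (log n)^A` -/
def Exceptions (A : ℝ) (x H : ℕ) : Set ℕ :=
  {n : ℕ | x < n ∧ n ≤ x + H ∧ 2 ≤ n ∧ ¬ n.Prime ∧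
    ¬ ∃ b : ℕ, 1 < b ∧ (b : ℝ) ≤ 2 * (Real.log n) ^ A ∧ IsWitness n b}

/-- Let `A ≥ 2` (`A = 2` is the range of the question). For every `ε > 0` there is `K` such that for all
`1 ≤ H ≤ x` at most `K x^ε (H^((A+1)/(2A)) + x^(1/(A+1)))` composite `n` in `(x, x + H]` have no witness `b` with
`1 < b ≤ 2 (log n)^A`. For `A = 2` the bound is `K x^ε (H^(3/4) + x^(1/3))`. -/
theorem result (A ε : ℝ) (hA : 2 ≤ A) (hε : 0 < ε) : ∃ K : ℝ, ∀ x H : ℕ, 1 ≤ H → H ≤ x →
    (Exceptions A x H).Finite ∧ ((Exceptions A x H).ncard : ℝ) ≤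
      K * (x : ℝ) ^ ε * ((H : ℝ) ^ ((A + 1) / (2 * A)) + (x : ℝ) ^ (1 / (A + 1))) := by
  classical
  have hA0 : 0 < A := by linarith
  obtain ⟨K, hK0, hK⟩ := Pool.Agent.L0h69.SI.short_count A ε hA hε
  refine ⟨K, fun x H hH hHx => ?_⟩
  have h1 : Exceptions A x H ⊆
      (((Finset.Ioc x (x + H)).filter (Pool.Agent.W57.SW.Bd A) : Finset ℕ) : Set ℕ) := by
    intro n hn
    obtain ⟨h1, h1', h2, h3, h4⟩ := hn
    rw [Finset.mem_coe, Finset.mem_filter, Finset.mem_Ioc]
    refine ⟨⟨h1, h1'⟩, h2, h3, fun b hb1 hb2 => ?_⟩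
    by_contra hp
    apply h4
    refine ⟨b, hb1, hb2, fun j d hjd hd => ⟨fun e => ?_, fun i hi e => ?_⟩⟩
    · exact hp ⟨j, d, hjd, hd, Or.inl e⟩
    · exact hp ⟨j, d, hjd, hd, Or.inr ⟨i, hi, e⟩⟩
  have h2 : (Exceptions A x H).Finite := (Finset.finite_toSet _).subset h1
  refine ⟨h2, ?_⟩
  have h3 := Set.ncard_le_ncard h1 (Finset.finite_toSet _)
  rw [Set.ncard_coe_finset] at h3
  have h4 := hK x H hH hHx
  rw [show (1 + 1 / A) / 2 = (A + 1) / (2 * A) by field_simp] at h4
  refine le_trans ?_ h4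
  exact_mod_cast h3

end Pool.Agent.Results.MP_0b15c0_nt.ShortIntervals
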